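import Mathlib

open Set Filter

namespace Pool.Agent.Results.MP_6ac782_lc.SymmTrans

/-- `A ∈ add u v` iff `{x | {y | x + y ∈ A} ∈ v} ∈ u` -/
def add (u v : Ultrafilter ℤ) : Ultrafilter ℤ := u.bind fun x => v.map fun y => x + y

def neg (u : Ultrafilter ℤ) : Ultrafilter ℤ := u.map fun x => -x

/-- every divisibility-upward closed member of `u` is a member of `v` -/
def TDvd (u v : Ultrafilter ℤ) : Prop :=
  ∀ A : Set ℤ, (∀ a ∈ A, ∀ b, a ∣ b → b ∈ A) → A ∈ u → A ∈ v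

/-- congruence modulo `w` -/
def Cong (w u v : Ultrafilter ℤ) : Prop := TDvd w (add u (neg v))

lemma mem_sub (u v : Ultrafilter ℤ) (A : Set ℤ) :
    A ∈ add u (neg v) ↔ {x | {y | x + -y ∈ A} ∈ v} ∈ u := Iff.rfl

lemma gaps (G : ℕ → ℕ) : ∃ E : Set ℕ, (∀ L, ∃ N ≥ L, ∀ p ∈ E, p ≤ N ∨ G N < p) ∧
    (∀ L, ∃ N ≥ L, ∀ p ∈ Eᶜ, p ≤ N ∨ G N < p) := by
  let a : ℕ → ℕ := fun n => Nat.rec 0 (fun _ x => max (x + 1) (G x)) n
  have ha : ∀ n, a (n + 1) = max (a n + 1) (G (a n)) := fun n => rfl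
  have hm : StrictMono a := strictMono_nat_of_lt_succ fun n => by rw [ha]; omega
  refine ⟨{p | ∃ j, a (2 * j) < p ∧ p ≤ a (2 * j + 1)}, fun L => ⟨a (2 * L + 1), ?_, ?_⟩,
    fun L => ⟨a (2 * L), ?_, ?_⟩⟩
  · have := hm.le_apply (x := 2 * L + 1); omega
  · rintro p ⟨j, h1, h2⟩
    by_cases hj : j ≤ L
    · exact Or.inl (h2.trans (hm.monotone (show 2 * j + 1 ≤ 2 * L + 1 by omega)))
    · have h3 : a (2 * L + 1 + 1) ≤ a (2 * j) := hm.monotone (show 2 * L + 1 + 1 ≤ 2 * j by omega)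
      have h4 := ha (2 * L + 1)
      right; omega
  · have := hm.le_apply (x := 2 * L); omega
  · intro p hp
    have h4 := ha (2 * L)
    rcases le_or_gt p (a (2 * L)) with h | h
    · exact Or.inl h
    · refine Or.inr (not_le.1 fun h' => hp ⟨L, by omega, by omega⟩)

lemma crt (S : Finset ℕ) (q : ℕ → ℕ) (r : ℕ → ℤ) (hq : ∀ p ∈ S, 0 < q p)
    (hc : ∀ p ∈ S, ∀ p' ∈ S, p ≠ p' → (q p).Coprime (q p')) :
    ∃ t : ℤ, 0 ≤ t ∧ t ≤ ∏ p ∈ S, (q p : ℤ) ∧ ∀ p ∈ S, (q p : ℤ) ∣ t - r p := by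
  have h := Nat.chineseRemainderOfFinset (fun p => (r p % q p).toNat) q S
    (fun p hp => (hq p hp).ne') (fun p hp p' hp' h => hc p hp p' hp' h)
  obtain ⟨k, hk⟩ := h
  have hpos : (0 : ℤ) < ∏ p ∈ S, (q p : ℤ) := Finset.prod_pos fun p hp => by exact_mod_cast hq p hp
  refine ⟨(k : ℤ) % ∏ p ∈ S, (q p : ℤ), Int.emod_nonneg _ hpos.ne', (Int.emod_lt_of_pos _ hpos).le,
    fun p hp => ?_⟩
  have h1 : (q p : ℤ) ∣ ∏ p ∈ S, (q p : ℤ) := Finset.dvd_prod_of_mem _ hp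
  have h2 : (k : ℤ) ≡ ((r p % q p).toNat : ℤ) [ZMOD (q p)] := Int.natCast_modEq_iff.2 (hk p hp)
  rw [Int.toNat_of_nonneg (Int.emod_nonneg _ (by exact_mod_cast (hq p hp).ne'))] at h2
  have h3 : (k : ℤ) % ∏ p ∈ S, (q p : ℤ) ≡ k [ZMOD (q p)] := (Int.mod_modEq _ _).of_dvd h1
  exact ((h3.trans h2).trans (Int.mod_modEq _ _)).symm.dvd

lemma solve {p k : ℕ} (hp : p.Prime) (b : ℤ) (hb : ¬ ((p ^ (k + 1) : ℕ) : ℤ) ∣ b) :
    ∃ r : ℤ, ((p ^ (k + 1) : ℕ) : ℤ) ∣ b * r + p ^ k := by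
  obtain ⟨j, hj, hg⟩ := (Nat.dvd_prime_pow hp).1
    (Int.natCast_dvd_natCast.1 (Int.gcd_dvd_right b ((p ^ (k + 1) : ℕ) : ℤ)))
  have hj' : j ≤ k := by
    by_contra h
    have : j = k + 1 := by omega
    subst this
    exact hb (hg ▸ Int.gcd_dvd_left b _)
  have hbez := Int.gcd_eq_gcd_ab b ((p ^ (k + 1) : ℕ) : ℤ)
  rw [hg] at hbez
  refine ⟨-(Int.gcdA b ((p ^ (k + 1) : ℕ) : ℤ)) * p ^ (k - j),
    Int.gcdB b ((p ^ (k + 1) : ℕ) : ℤ) * p ^ (k - j), ?_⟩
  have e : (p : ℤ) ^ k = ((p ^ j : ℕ) : ℤ) * p ^ (k - j) := by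
    push_cast; rw [← pow_add]; congr 1; omega
  rw [e, hbez]; ring

lemma not_symm (w : Ultrafilter ℤ) (hw : w ≠ pure 0) (B : Set ℤ) (hB : B ∈ w)
    (hB' : ∀ b ∈ B, {x | b ∣ x} ∉ w) : ∃ u v, Cong w u v ∧ ¬ Cong w v u := by
  classical
  have h0 : {x : ℤ | x ≠ 0} ∈ w := by
    refine Ultrafilter.compl_mem_iff_notMem.2 fun h => hw ?_
    exact Ultrafilter.eq_of_le (le_pure_iff.2 h)
  -- the primes with bounded exponent, and the first bad power
  have hk : ∀ p : ℕ, ∃ k : ℕ, (∃ j : ℕ, {x | ((p ^ j : ℕ) : ℤ) ∣ x} ∉ w) →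
      {x | ((p ^ (k + 1) : ℕ) : ℤ) ∣ x} ∉ w ∧
        ∀ j : ℕ, {x | ((p ^ j : ℕ) : ℤ) ∣ x} ∉ w → k + 1 ≤ j := fun p => by
    by_cases h : ∃ j : ℕ, {x | ((p ^ j : ℕ) : ℤ) ∣ x} ∉ w
    · have h1 : Nat.find h ≠ 0 := fun h1 => by
        have := Nat.find_spec h
        rw [h1] at this
        exact this (Filter.univ_mem' (f := (w : Filter ℤ)) fun x => by simp)
      obtain ⟨k, hk⟩ := Nat.exists_eq_succ_of_ne_zero h1
      refine ⟨k, fun _ => ⟨?_, fun j hj => ?_⟩⟩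
      · have := Nat.find_spec h
        rwa [hk] at this
      · have := Nat.find_min' h hj
        omega
    · exact ⟨0, fun h' => (h h').elim⟩
  choose k hk using hk
  let P : Set ℕ := {p | p.Prime ∧ ∃ j : ℕ, {x | ((p ^ j : ℕ) : ℤ) ∣ x} ∉ w}
  let q : ℕ → ℕ := fun p => p ^ (k p + 1)
  have hP : ∀ b ∈ B, b ≠ 0 → ∃ p ∈ P, (q p : ℤ) ∣ b := fun b hb hb0 => by
    by_contra h
    push Not at h
    apply hB' b hb
    have h1 : ∀ᶠ x in (w : Filter ℤ), ∀ d ∈ b.natAbs.divisors, IsPrimePow d → (d : ℤ) ∣ x := by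
      rw [Finset.eventually_all]
      intro d hd
      by_cases hd' : IsPrimePow d
      · obtain ⟨p, j, hp, -, rfl⟩ := (isPrimePow_nat_iff _).1 hd'
        have : {x | ((p ^ j : ℕ) : ℤ) ∣ x} ∈ w := by
          by_contra hc
          refine h p ⟨hp, j, hc⟩ (dvd_trans ?_ (Int.natCast_dvd.2 (Nat.dvd_of_mem_divisors hd)))
          exact Int.natCast_dvd_natCast.2 (pow_dvd_pow _ ((hk p ⟨j, hc⟩).2 j hc))
        filter_upwards [this] with x hx _ using hx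
      · exact Eventually.of_forall fun x h => (hd' h).elim
    filter_upwards [h1] with x hx
    rw [← Int.natAbs_dvd_natAbs, Nat.dvd_iff_prime_pow_dvd_dvd]
    intro p j hp hj
    rcases Nat.eq_zero_or_pos j with rfl | hj0
    · simp
    · exact Int.natCast_dvd.1 (hx _ (Nat.mem_divisors.2 ⟨hj, Int.natAbs_ne_zero.2 hb0⟩)
        ((isPrimePow_nat_iff _).2 ⟨p, j, hp, hj0, rfl⟩))
  let F : ℕ → ℕ := fun N => N.factorial * ∏ p ∈ (Finset.range (N + 1)).filter (· ∈ P), q p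
  have hq : ∀ p ∈ P, 0 < q p := fun p hp => pow_pos hp.1.pos _
  have hFpos : ∀ N, 0 < F N := fun N => Nat.mul_pos (Nat.factorial_pos _)
    (Finset.prod_pos fun p hp => hq p (Finset.mem_filter.1 hp).2)
  obtain ⟨I, hIP, hI, hgap⟩ : ∃ I ⊆ P, {x : ℤ | ∃ p ∈ I, (q p : ℤ) ∣ x} ∈ w ∧
      ∀ L, ∃ N ≥ L, ∀ p ∈ I, p ≤ N ∨ F N + N + 1 < p := by
    obtain ⟨E, h1, h2⟩ := gaps fun N => F N + N + 1
    have : {x : ℤ | ∃ p ∈ P ∩ E, (q p : ℤ) ∣ x} ∪ {x : ℤ | ∃ p ∈ P ∩ Eᶜ, (q p : ℤ) ∣ x} ∈ w := by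
      filter_upwards [hB, h0] with b hb hb0
      obtain ⟨p, hp, hd⟩ := hP b hb hb0
      by_cases h : p ∈ E
      · exact Or.inl ⟨p, ⟨hp, h⟩, hd⟩
      · exact Or.inr ⟨p, ⟨hp, h⟩, hd⟩
    rcases Ultrafilter.union_mem_iff.1 this with h | h
    · exact ⟨_, inter_subset_left, h, fun L => (h1 L).imp fun N hN =>
        ⟨hN.1, fun p hp => hN.2 p hp.2⟩⟩
    · exact ⟨_, inter_subset_left, h, fun L => (h2 L).imp fun N hN =>
        ⟨hN.1, fun p hp => hN.2 p hp.2⟩⟩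
  choose N hN hNI using hgap
  -- the integers x b
  have hx : ∀ b : ℤ, ∃ x : ℤ, b ∣ x ∧ |x| ≤ F (N b.natAbs) ∧
      ∀ p ∈ P, p ≤ N b.natAbs → ¬ (q p : ℤ) ∣ b → (q p : ℤ) ∣ x + p ^ k p := fun b => by
    have hr : ∀ p : ℕ, ∃ r : ℤ, p ∈ P → ¬ (q p : ℤ) ∣ b → (q p : ℤ) ∣ b * r + p ^ k p := fun p => by
      by_cases h : p ∈ P ∧ ¬ (q p : ℤ) ∣ b
      · obtain ⟨r, hr⟩ := solve h.1.1 b h.2
        exact ⟨r, fun _ _ => hr⟩
      · exact ⟨0, fun h1 h2 => (h ⟨h1, h2⟩).elim⟩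
    choose r hr using hr
    obtain ⟨t, ht0, ht1, ht⟩ := crt ((Finset.range (N b.natAbs + 1)).filter (· ∈ P)) q r
      (fun p hp => hq p (Finset.mem_filter.1 hp).2) (fun p hp p' hp' h =>
        Nat.coprime_pow_primes _ _ (Finset.mem_filter.1 hp).2.1 (Finset.mem_filter.1 hp').2.1 h)
    refine ⟨b * t, dvd_mul_right _ _, ?_, fun p hp hpN hpb => ?_⟩
    · rw [abs_mul, abs_of_nonneg ht0]
      simp only [F]
      push_cast
      refine mul_le_mul ?_ ht1 ht0 (by positivity)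
      rw [Int.abs_eq_natAbs]
      exact_mod_cast (hN _).trans (Nat.self_le_factorial _)
    · have h1 := ht p (Finset.mem_filter.2 ⟨Finset.mem_range.2 (by omega), hp⟩)
      have := (h1.mul_left b).add (hr p hp hpb)
      rwa [show b * (t - r p) + (b * r p + (p : ℤ) ^ k p) = b * t + p ^ k p by ring] at this
  choose x hxb hxF hxq using hx
  let y : ℕ → ℤ := fun m => F (N m)
  refine ⟨w.map x, (hyperfilter ℕ).map y, fun A hA hAw => ?_, fun h => ?_⟩
  · rw [mem_sub]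
    show {b | {m | x b + -y m ∈ A} ∈ hyperfilter ℕ} ∈ w
    filter_upwards [hAw, h0] with b hb hb0
    refine Nat.hyperfilter_le_atTop ?_
    filter_upwards [eventually_ge_atTop b.natAbs] with m hm
    refine hA b hb _ ((hxb b).add (dvd_neg.2 ?_))
    rw [← Int.natAbs_dvd]
    exact Int.natCast_dvd_natCast.2 (Dvd.dvd.mul_right
      (Nat.dvd_factorial (Int.natAbs_pos.2 hb0) (hm.trans (hN m))) _)
  · have h1 := h {x : ℤ | ∃ p ∈ I, (q p : ℤ) ∣ x}
      (fun a ⟨p, hp, ha⟩ b hab => ⟨p, hp, ha.trans hab⟩) hI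
    rw [mem_sub] at h1
    have h2 : {m | {b | ∃ p ∈ I, (q p : ℤ) ∣ y m + -x b} ∈ w} ∈ hyperfilter ℕ := h1
    obtain ⟨m, hm⟩ := Ultrafilter.nonempty_of_mem h2
    have h3 : ∀ᶠ b in (w : Filter ℤ), ∀ p ∈ Finset.range (F (N m) + 2), p ∈ P →
        ¬ (q p : ℤ) ∣ b := by
      rw [Finset.eventually_all]
      intro p _
      by_cases hp : p ∈ P
      · filter_upwards [Ultrafilter.compl_mem_iff_notMem.2 (hk p hp.2).1] with b hb _ using hb
      · exact Eventually.of_forall fun b h => (hp h).elim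
    obtain ⟨b, ⟨⟨p, hp, hd⟩, hb3⟩, hb, hb0⟩ := Filter.nonempty_of_mem
      (inter_mem (inter_mem hm h3) (inter_mem hB h0))
    have hyp : 0 < y m := by simp only [y]; exact_mod_cast hFpos _
    have hpq : ∀ p : ℕ, (p : ℤ) ∣ q p := fun p =>
      Int.natCast_dvd_natCast.2 (dvd_pow_self _ (Nat.succ_ne_zero _))
    have hby : y m < |b| := by
      obtain ⟨p', hp', hd'⟩ := hP b hb hb0
      have e1 : ¬ p' < F (N m) + 2 := fun e => hb3 p' (Finset.mem_range.2 e) hp' hd'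
      have e2 : (p' : ℤ) ≤ |b| :=
        Int.le_of_dvd (abs_pos.2 hb0) ((dvd_abs _ _).2 ((hpq p').trans hd'))
      simp only [y]
      omega
    have hpP := hIP hp
    have hndvd : F (N m) + 1 < p → ∀ z : ℤ, 0 < z → z ≤ y m + 1 → ¬ (p : ℤ) ∣ z :=
      fun e z hz1 hz2 hz => by
        have := Int.le_of_dvd hz1 hz
        simp only [y] at hz2
        omega
    rcases hNI b.natAbs p hp with e | e
    · by_cases hqb : (q p : ℤ) ∣ b
      · have e1 : ¬ p < F (N m) + 2 := fun e => hb3 p (Finset.mem_range.2 e) hpP hqb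
        refine hndvd (by omega) (y m) hyp (by omega) ?_
        have := ((hpq p).trans hd).add (((hpq p).trans hqb).trans (hxb b))
        simpa using this
      · have e2 : (q p : ℤ) ∣ y m + p ^ k p := by
          have := hd.add (hxq b p hpP e hqb)
          rwa [show y m + -x b + (x b + (p : ℤ) ^ k p) = y m + p ^ k p by ring] at this
        rcases hNI m p hp with e1 | e1
        · have e3 : (q p : ℤ) ∣ y m := Int.natCast_dvd_natCast.2 (Dvd.dvd.mul_left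
            (Finset.dvd_prod_of_mem _
              (Finset.mem_filter.2 ⟨Finset.mem_range.2 (by omega), hpP⟩)) _)
          have e4 : (q p : ℤ) ∣ ((p ^ k p : ℕ) : ℤ) := by
            push_cast
            exact (dvd_add_right e3).1 e2
          have := (Nat.pow_dvd_pow_iff_le_right hpP.1.one_lt).1 (Int.natCast_dvd_natCast.1 e4)
          omega
        · rcases Nat.eq_zero_or_pos (k p) with e3 | e3
          · refine hndvd (by omega) (y m + 1) (by omega) le_rfl ?_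
            have := (hpq p).trans e2
            rwa [e3, pow_zero] at this
          · refine hndvd (by omega) (y m) hyp (by omega) ?_
            exact (dvd_add_left (dvd_pow_self _ e3.ne')).1 ((hpq p).trans e2)
    · have e1 : y m + -x b ≠ 0 := fun e1 => by
        have e2 : b ∣ y m := by
          have : y m = x b := by omega
          rw [this]; exact hxb b
        have := Int.le_of_dvd hyp ((abs_dvd _ _).2 e2)
        omega
      have e2 : (p : ℤ) ≤ |y m + -x b| :=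
        Int.le_of_dvd (abs_pos.2 e1) ((dvd_abs _ _).2 ((hpq p).trans hd))
      have e3 := hxF b
      have e4 := hN b.natAbs
      have e5 : |y m + -x b| ≤ |y m| + |x b| := by simpa using abs_add_le (y m) (-x b)
      rw [abs_of_pos hyp] at e5
      rw [Int.abs_eq_natAbs] at hby
      omega

theorem result : ∀ w : Ultrafilter ℤ, w ≠ pure 0 → (∀ u v, Cong w u v → Cong w v u) →
    ∀ u v t, Cong w u v → Cong w v t → Cong w u t := by
  intro w hw hs u v t h1 h2 A hA hAw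
  by_cases h : ∃ b ∈ A, {x | b ∣ x} ∈ w
  · obtain ⟨b, hb, hbw⟩ := h
    have e1 := h1 _ (fun a ha c hc => ha.trans hc) hbw
    have e2 := h2 _ (fun a ha c hc => ha.trans hc) hbw
    rw [mem_sub] at e1 e2 ⊢
    filter_upwards [e1] with x hx
    obtain ⟨y, hy1, hy2⟩ := Ultrafilter.nonempty_of_mem (inter_mem hx e2)
    filter_upwards [hy2] with z hz
    refine hA b hb _ ?_
    have := dvd_add (show b ∣ x + -y from hy1) (show b ∣ y + -z from hz)
    rwa [show x + -y + (y + -z) = x + -z by ring] at this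
  · push Not at h
    obtain ⟨u, v, h3, h4⟩ := not_symm w hw A hAw h
    exact (h4 (hs u v h3)).elim

end Pool.Agent.Results.MP_6ac782_lc.SymmTrans
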